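import Mathlib
import Pool.Agent.V11167.ShDefs
import Pool.Agent.V11167.ShJ

/-!
# Perimeter-to-area ratio of shifted `(n+1,n)`-setups
-/

namespace Pool.Agent.Results.MP_ded0ac_co.NPlusOne

open Pool.Agent.V11167.Sh

/-- For every `n ≥ 3`, basic `(n+1,n)`-setups with admissible marked vertices exist, and for each of
them, for all sufficiently small `ε > 0`, the union of the `n + 1` polygons translated by `ε • A i`
has perimeter-to-area ratio greater than `4 tan (π/n)`. -/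
theorem result (n : ℕ) (hn : 3 ≤ n) :
    (∃ (θ : Fin (n+1) → ℝ) (A : Fin (n+1) → ℂ), IsBasic (n+1) n θ ∧ IsMarking (n+1) n θ A) ∧
    ∀ (θ : Fin (n+1) → ℝ) (A : Fin (n+1) → ℂ), IsBasic (n+1) n θ → IsMarking (n+1) n θ A →
      ∃ ε₀ > 0, ∀ ε : ℝ, 0 < ε → ε < ε₀ →
        4 * Real.tan (Real.pi / n) < ratio (shifted (n+1) n θ A ε) := by
  have hc : Nat.Coprime (n+1) n := by
    rw [Nat.coprime_comm]
    exact Nat.coprime_self_add_right.mpr (Nat.coprime_one_right n)
  refine ⟨exists_setup (by omega) hn hc, ?_⟩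
  intro θ A hB hM
  obtain ⟨ε₀, h1, h2⟩ := all_cases (by omega) hn hc hB hM
  refine ⟨ε₀, h1, fun ε h3 h4 => (h2 ε h3 h4).1 ⟨by omega, ?_⟩⟩
  have : n + 1 ≡ 0 + 1 [MOD n] := Nat.ModEq.add_right 1 (by simp [Nat.ModEq])
  simpa using this

end Pool.Agent.Results.MP_ded0ac_co.NPlusOne
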